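import Pool.Agent.R720.PIM.Final

/-!
# Minimal dimension of projective indecomposables of reduced enveloping algebras: `m ≠ q`

The restricted Lie algebra is the ten-dimensional contragredient Lie algebra over a field of
characteristic three with Cartan matrix `(2, -1; -1, 0)`, and `χ = 0`. The dimension of every
projective indecomposable module is divisible by `2` or by `5`, so none of them is a power of `3`;
the largest power of `3` that divides all of them is therefore not the least one of them.
-/

namespace Pool.Agent.Results.MP_b2f0a7_al.TenDimensionalExample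

open Pool.Agent.R720.PIM

/-- There are an algebraically closed field `K` of characteristic `3`, a restricted Lie algebra `L`
of dimension `10` over `K` and a linear form `χ` (namely `χ = 0`) such that no projective
indecomposable `u(L, χ)`-module has dimension a power of `3`, and such that the smallest dimension
`m` of a projective indecomposable `u(L, χ)`-module is different from the largest power `q` of `3`
that divides the dimensions of all the projective indecomposable `u(L, χ)`-modules. -/
theorem result : ∃ (K : Type) (_ : Field K) (_ : IsAlgClosed K) (_ : CharP K 3)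
    (L : Type) (_ : LieRing L) (_ : LieAlgebra K L) (P : PMap 3 K L) (χ : Module.Dual K L)
    (m q : ℕ), Module.finrank K L = 10 ∧ χ = 0 ∧
      (∀ d ∈ pimDims K (RedEnv P χ), ∀ e : ℕ, d ≠ 3 ^ e) ∧
      IsLeast (pimDims K (RedEnv P χ)) m ∧
      IsGreatest {s : ℕ | (∃ e : ℕ, s = 3 ^ e) ∧ ∀ d ∈ pimDims K (RedEnv P χ), s ∣ d} q ∧
      m ≠ q := by
  let K : Type := AlgebraicClosure (ZMod 3)
  have hK : CharP K 3 := charP_of_injective_algebraMap
    (algebraMap (ZMod 3) K).injective 3
  let P : PMap 3 K (LL K) := pmap (bv K) (str_bv K)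
  obtain ⟨B, hB⟩ := isPBW P (0 : Module.Dual K (LL K)) (bv K) (three_eq K)
  have hfin : Module.Finite K (RedEnv P (0 : Module.Dual K (LL K))) := Module.Finite.of_basis B
  have hnt : Nontrivial (RedEnv P (0 : Module.Dual K (LL K))) := ⟨B 0, 0, B.ne_zero 0⟩
  have hne : (pimDims K (RedEnv P (0 : Module.Dual K (LL K)))).Nonempty := pim_exists
  have hpow : ∀ d ∈ pimDims K (RedEnv P (0 : Module.Dual K (LL K))), ∀ e : ℕ, d ≠ 3 ^ e := by
    rintro d ⟨M, i1, i2, i3, i4, hproj, hf, hI, rfl⟩ e he
    exact pow3_contra (not_pow P M hproj hI) he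
  have hpos : ∀ d ∈ pimDims K (RedEnv P (0 : Module.Dual K (LL K))), 0 < d := by
    rintro d ⟨M, i1, i2, i3, i4, hproj, hf, hI, rfl⟩
    have := hI.1
    exact Module.finrank_pos
  have hm := Nat.sInf_mem hne
  let T : Set ℕ := {s : ℕ | (∃ e : ℕ, s = 3 ^ e) ∧
    ∀ d ∈ pimDims K (RedEnv P (0 : Module.Dual K (LL K))), s ∣ d}
  have hT1 : T.Nonempty := ⟨1, ⟨0, rfl⟩, fun d _ => one_dvd d⟩
  have hT2 : BddAbove T := ⟨sInf (pimDims K (RedEnv P (0 : Module.Dual K (LL K)))),
    fun s hs => Nat.le_of_dvd (hpos _ hm) (hs.2 _ hm)⟩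
  have hq := Nat.sSup_mem hT1 hT2
  refine ⟨K, inferInstance, inferInstance, hK, LL K, inferInstance, inferInstance, P, 0,
    sInf (pimDims K (RedEnv P (0 : Module.Dual K (LL K)))), sSup T, ?_, rfl, hpow,
    ⟨hm, fun d hd => Nat.sInf_le hd⟩, ⟨hq, fun s hs => le_csSup hT2 hs⟩, ?_⟩
  · rw [Module.finrank_eq_card_basis (bv K), Fintype.card_fin]
  · intro h
    obtain ⟨e, he⟩ := hq.1
    exact hpow _ hm e (h.trans he)

end Pool.Agent.Results.MP_b2f0a7_al.TenDimensionalExample
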